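import Pool.Agent.helper56.SGE.Vx

/-!
# Module C2 of the SGE project: the vertices of the two paths
-/

set_option autoImplicit false

namespace Pool.Agent.helper85.SGE

open Pool.Agent.helper56.SGE Vx

variable (S : Slp)

theorem mem_readers {i : ℕ} {k : Bool} {w : ℕ} :
    w ∈ S.readers i k ↔ w < 2 * S.N + 2 ∧ 2 ≤ w ∧ S.src w = i ∧ S.kind w = k := by
  simp [Slp.readers]

theorem nodup_readers (i : ℕ) (k : Bool) : (S.readers i k).Nodup :=
  List.nodup_range.filter _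

theorem wr_inj : Function.Injective wr := fun a b h => by simpa using h
theorem wm_inj : Function.Injective wm := fun a b h => by simpa using h
theorem wl_inj : Function.Injective wl := fun a b h => by simpa using h

theorem nodup_map_wr (i : ℕ) (k : Bool) : ((S.readers i k).map wr).Nodup :=
  (nodup_readers S i k).map wr_inj

theorem nodup_map_wm (i : ℕ) (k : Bool) : ((S.readers i k).map wm).Nodup :=
  (nodup_readers S i k).map wm_inj

theorem nodup_map_wl (i : ℕ) (k : Bool) : ((S.readers i k).map wl).Nodup :=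
  (nodup_readers S i k).map wl_inj

/-- the block of a vertex of the first path -/
def own (v : Vx) : ℕ :=
  match v with
  | .A1 | .A2 | .B1 | .B2 | .M | .J | .n => S.N
  | .p1 j | .q2 j | .X j | .q3 j | .r4 j | .Y j => j
  | .wr w | .wm w | .wl w => S.src w
  | _ => 0

theorem src_lt (h : S.WF) {w : ℕ} (h2 : 2 ≤ w) (hN : w < 2 * S.N + 2) : S.src w < w / 2 := by
  unfold Slp.src
  split_ifs
  · exact h.A_lt _ (by omega) (by omega)
  · exact h.B_lt _ (by omega) (by omega)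

theorem okPort (h : S.WF) {w : ℕ} (h2 : 2 ≤ w) (hN : w < 2 * S.N + 2) :
    S.OkPort (S.src w) (S.kind w) := by
  unfold Slp.src Slp.kind
  split_ifs
  · exact h.okA _ (by omega) (by omega)
  · exact h.okB _ (by omega) (by omega)

/-- the elements of a block of the first path -/
theorem mem_blk1 (h : S.WF) {i : ℕ} (hi : 1 ≤ i) (hiN : i ≤ S.N) (v : Vx) :
    v ∈ S.blk1 i ↔ (v = p1 i ∨ v = q2 i ∨ v = X i ∨ v = q3 i ∨ v = Y i ∨ v = r4 i) ∨
      (∃ w, 2 ≤ w ∧ w < 2 * S.N + 2 ∧ S.src w = i ∧ (v = wr w ∨ v = wm w ∨ v = wl w)) ∨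
      (i = S.N ∧ (v = A1 ∨ v = A2 ∨ v = B1 ∨ v = B2 ∨ v = M ∨ v = J ∨ v = n)) := by
  unfold Slp.blk1
  by_cases h1 : i = S.N
  · rw [if_pos h1]
    have hno : ¬ ∃ w, 2 ≤ w ∧ w < 2 * S.N + 2 ∧ S.src w = i ∧
        (v = wr w ∨ v = wm w ∨ v = wl w) := by
      rintro ⟨w, h2, h3, h4, -⟩
      have := src_lt S h h2 h3
      omega
    simp only [List.mem_cons, List.not_mem_nil, or_false]
    constructor
    · rintro (e | e | e | e | e | e | e | e | e | e | e | e | e) <;> simp [e, h1]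
    · rintro ((e | e | e | e | e | e) | e | ⟨-, (e | e | e | e | e | e | e)⟩)
      · simp [e]
      · simp [e]
      · simp [e]
      · simp [e]
      · simp [e]
      · simp [e]
      · exact absurd e hno
      · simp [e]
      · simp [e]
      · simp [e]
      · simp [e]
      · simp [e]
      · simp [e]
      · simp [e]
  rw [if_neg h1]
  by_cases h2 : S.ty i = .f
  · rw [if_pos h2]
    simp only [List.mem_append, List.mem_map, List.mem_reverse, List.mem_cons, List.not_mem_nil,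
      or_false, mem_readers, h1, false_and]
    constructor
    · rintro (((((⟨w, ⟨w1, w2, w3, w4⟩, e⟩ | e | e | e) | ⟨w, ⟨w1, w2, w3, w4⟩, e⟩) |
        ⟨w, ⟨w1, w2, w3, w4⟩, e⟩) | e | e | e))
      · exact Or.inr ⟨w, w2, w1, w3, Or.inl e.symm⟩
      · simp [e]
      · simp [e]
      · simp [e]
      · exact Or.inr ⟨w, w2, w1, w3, Or.inr (Or.inl e.symm)⟩
      · exact Or.inr ⟨w, w2, w1, w3, Or.inr (Or.inr e.symm)⟩
      · simp [e]
      · simp [e]
      · simp [e]
    · rintro ((e | e | e | e | e | e) | ⟨w, w2, w1, w3, e⟩)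
      · simp [e]
      · simp [e]
      · simp [e]
      · simp [e]
      · simp [e]
      · simp [e]
      · have hk : S.kind w = true := by
          rcases okPort S h w2 w1 with ⟨h5, -⟩ | ⟨-, ⟨h6, -⟩ | ⟨-, h6⟩ | h6⟩
          · omega
          · rw [w3, h2] at h6; exact absurd h6 (by simp)
          · exact h6
          · rw [w3, h2] at h6; exact absurd h6 (by simp)
        rcases e with rfl | rfl | rfl
        · simp [w1, w2, w3, hk]
        · simp [w1, w2, w3, hk]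
        · simp [w1, w2, w3, hk]
  · rw [if_neg h2]
    simp only [List.mem_append, List.mem_map, List.mem_reverse, List.mem_cons, List.not_mem_nil,
      or_false, mem_readers, h1, false_and]
    constructor
    · intro hv
      rcases hv with ((((((((⟨w, ⟨w1, w2, w3, w4⟩, e⟩ | e) | ⟨w, ⟨w1, w2, w3, w4⟩, e⟩) | e) |
        ⟨w, ⟨w1, w2, w3, w4⟩, e⟩) | ⟨w, ⟨w1, w2, w3, w4⟩, e⟩) | e | e) |
        ⟨w, ⟨w1, w2, w3, w4⟩, e⟩) | ⟨w, ⟨w1, w2, w3, w4⟩, e⟩) | e | e
      · exact Or.inr ⟨w, w2, w1, w3, Or.inl e.symm⟩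
      · simp [e]
      · exact Or.inr ⟨w, w2, w1, w3, Or.inl e.symm⟩
      · simp [e]
      · exact Or.inr ⟨w, w2, w1, w3, Or.inr (Or.inl e.symm)⟩
      · exact Or.inr ⟨w, w2, w1, w3, Or.inr (Or.inr e.symm)⟩
      · simp [e]
      · simp [e]
      · exact Or.inr ⟨w, w2, w1, w3, Or.inr (Or.inl e.symm)⟩
      · exact Or.inr ⟨w, w2, w1, w3, Or.inr (Or.inr e.symm)⟩
      · simp [e]
      · simp [e]
    · rintro ((e | e | e | e | e | e) | ⟨w, w2, w1, w3, e⟩)
      · simp [e]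
      · simp [e]
      · simp [e]
      · simp [e]
      · simp [e]
      · simp [e]
      · rcases e with rfl | rfl | rfl <;> rcases hk : S.kind w with _ | _ <;>
          simp [w1, w2, w3, hk]

theorem nodup_blk1 (i : ℕ) : (S.blk1 i).Nodup := by
  unfold Slp.blk1
  split_ifs with h1 h2
  · simp
  · simp only [List.nodup_append, List.mem_append, List.mem_map, List.mem_reverse, List.mem_cons,
      List.not_mem_nil, or_false, List.map_reverse, List.nodup_reverse, nodup_map_wr, nodup_map_wm,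
      nodup_map_wl, List.nodup_cons, List.nodup_nil, mem_readers, true_and, and_true]
    refine ⟨⟨⟨⟨?_, ?_⟩, ?_⟩, ?_⟩, ?_, ?_⟩
    · simp
    · rintro a ⟨w, hw, rfl⟩ b hb rfl
      simp at hb
    · rintro a (⟨w, hw, rfl⟩ | rfl | rfl | rfl) b ⟨w', hw', rfl⟩ hab <;> simp at hab
    · rintro a ((⟨w, hw, rfl⟩ | rfl | rfl | rfl) | ⟨w, hw, rfl⟩) b ⟨w', hw', rfl⟩ hab <;>
        simp at hab
    · simp
    · rintro a (((⟨w, hw, rfl⟩ | rfl | rfl | rfl) | ⟨w, hw, rfl⟩) | ⟨w, hw, rfl⟩) b hb rfl <;>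
        simp at hb
  · simp only [List.nodup_append, List.mem_append, List.mem_map, List.mem_reverse, List.mem_cons,
      List.not_mem_nil, or_false, List.map_reverse, List.nodup_reverse, nodup_map_wr, nodup_map_wm,
      nodup_map_wl, List.nodup_cons, List.nodup_nil, mem_readers, true_and, and_true]
    have hk : ∀ w w', (w < 2 * S.N + 2 ∧ 2 ≤ w ∧ S.src w = i ∧ S.kind w = true) →
        (w' < 2 * S.N + 2 ∧ 2 ≤ w' ∧ S.src w' = i ∧ S.kind w' = false) → w ≠ w' := by
      rintro w w' ⟨-, -, -, h⟩ ⟨-, -, -, h'⟩ rfl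
      rw [h] at h'
      exact absurd h' (by simp)
    refine ⟨⟨⟨⟨⟨⟨⟨⟨⟨?_, ?_⟩, ?_⟩, ?_, ?_⟩, ?_⟩, ?_⟩, ?_, ?_⟩, ?_⟩, ?_⟩, ?_, ?_⟩
    all_goals first
      | (simp; done)
      | (intro a ha b hb hab
         subst hab
         repeat' (refine Or.elim ha (fun ha => ?_) (fun ha => ?_))
         all_goals (repeat' (refine Or.elim hb (fun hb => ?_) (fun hb => ?_)))
         all_goals first
           | (obtain ⟨w, hw, e⟩ := ha
              obtain ⟨w', hw', e'⟩ := hb
              rw [← e] at e'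
              first
                | (simp at e'; done)
                | (exact hk _ _ hw hw' (by simpa using e'.symm)))
           | (obtain ⟨w, hw, e⟩ := ha
              rw [← e] at hb
              simp at hb; done)
           | (obtain ⟨w', hw', e'⟩ := hb
              rw [ha] at e'
              simp at e'; done)
           | (rw [ha] at hb; simp at hb; done))

theorem own_blk1 (h : S.WF) {i : ℕ} (hi : 1 ≤ i) (hiN : i ≤ S.N) {v : Vx} (hv : v ∈ S.blk1 i) :
    own S v = i := by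
  rw [mem_blk1 S h hi hiN] at hv
  rcases hv with (e | e | e | e | e | e) | ⟨w, -, -, h3, (e | e | e)⟩ |
    ⟨h4, (e | e | e | e | e | e | e)⟩ <;> subst e <;> simp [own, *]

theorem mem_blks1 (h : S.WF) {k : ℕ} (hk : k ≤ S.N) (v : Vx) :
    v ∈ S.blks1 k ↔ (∃ i, 1 ≤ i ∧ i ≤ k ∧ v ∈ S.blk1 i) ∨
      ∃ w, 2 ≤ w ∧ w < 2 * S.N + 2 ∧ S.src w = 0 ∧ v = wr w := by
  induction k with
  | zero =>
    simp only [Slp.blks1, List.mem_map, List.mem_reverse, mem_readers]
    constructor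
    · rintro ⟨w, ⟨h1, h2, h3, h4⟩, rfl⟩
      exact Or.inr ⟨w, h2, h1, h3, rfl⟩
    · rintro (⟨i, h1, h2, -⟩ | ⟨w, h2, h1, h3, rfl⟩)
      · omega
      · refine ⟨w, ⟨h1, h2, h3, ?_⟩, rfl⟩
        rcases okPort S h h2 h1 with ⟨-, h5⟩ | ⟨h5, -⟩
        · exact h5
        · exact absurd h3 h5
  | succ k ih =>
    simp only [Slp.blks1, List.mem_append, ih (by omega)]
    constructor
    · rintro (h1 | ⟨i, h1, h2, h3⟩ | h1)
      · exact Or.inl ⟨k + 1, by omega, le_rfl, h1⟩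
      · exact Or.inl ⟨i, h1, by omega, h3⟩
      · exact Or.inr h1
    · rintro (⟨i, h1, h2, h3⟩ | h1)
      · rcases Nat.lt_or_ge i (k + 1) with h4 | h4
        · exact Or.inr (Or.inl ⟨i, h1, by omega, h3⟩)
        · have : i = k + 1 := by omega
          subst this
          exact Or.inl h3
      · exact Or.inr (Or.inr h1)

theorem nodup_blks1 (h : S.WF) {k : ℕ} (hk : k ≤ S.N) : (S.blks1 k).Nodup := by
  induction k with
  | zero =>
    simp only [Slp.blks1, List.map_reverse, List.nodup_reverse]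
    exact nodup_map_wr S 0 false
  | succ k ih =>
    simp only [Slp.blks1]
    rw [List.nodup_append]
    refine ⟨nodup_blk1 S _, ih (by omega), ?_⟩
    rintro a ha b hb rfl
    have h1 := own_blk1 S h (by omega) hk ha
    rw [mem_blks1 S h (by omega)] at hb
    rcases hb with ⟨i, h2, h3, h4⟩ | ⟨w, h2, h3, h4, rfl⟩
    · have h5 := own_blk1 S h h2 (by omega) h4
      omega
    · simp only [own] at h1
      omega

theorem mem_anch {k : ℕ} (v : Vx) :
    v ∈ Slp.anch k ↔ ∃ j, 1 ≤ j ∧ j ≤ k ∧ (v = a5 j ∨ v = a3 j) := by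
  induction k with
  | zero =>
    simp only [Slp.anch, List.not_mem_nil, false_iff]
    rintro ⟨j, h1, h2, -⟩
    omega
  | succ k ih =>
    simp only [Slp.anch, List.mem_append, List.mem_cons, List.not_mem_nil, or_false, ih]
    constructor
    · rintro ((h1 | h1) | ⟨j, h1, h2, h3⟩)
      · exact ⟨k + 1, by omega, le_rfl, Or.inl h1⟩
      · exact ⟨k + 1, by omega, le_rfl, Or.inr h1⟩
      · exact ⟨j, h1, by omega, h3⟩
    · rintro ⟨j, h1, h2, h3⟩
      rcases Nat.lt_or_ge j (k + 1) with h4 | h4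
      · exact Or.inr ⟨j, h1, by omega, h3⟩
      · have : j = k + 1 := by omega
        subst this
        exact Or.inl h3

theorem nodup_anch (k : ℕ) : (Slp.anch k).Nodup := by
  induction k with
  | zero => simp [Slp.anch]
  | succ k ih =>
    simp only [Slp.anch]
    rw [List.nodup_append]
    refine ⟨by simp, ih, ?_⟩
    rintro a ha b hb rfl
    rw [mem_anch] at hb
    obtain ⟨j, h1, h2, h3⟩ := hb
    simp only [List.mem_cons, List.not_mem_nil, or_false] at ha
    rcases ha with rfl | rfl <;> rcases h3 with h3 | h3 <;> simp at h3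
    · omega
    · omega

theorem mem_con1 (h : S.WF) (v : Vx) : v ∈ S.con1 ↔
    (v = p0 ∨ v = q0 ∨ v = q0p ∨ v = s0 ∨ v = r0 ∨ v = anc) ∨
      ∃ w, 2 ≤ w ∧ w < 2 * S.N + 2 ∧ S.src w = 0 ∧ (v = wm w ∨ v = wl w) := by
  have hk : ∀ w, 2 ≤ w → w < 2 * S.N + 2 → S.src w = 0 → S.kind w = false := by
    intro w h2 h1 h3
    rcases okPort S h h2 h1 with ⟨-, h5⟩ | ⟨h5, -⟩
    · exact h5
    · exact absurd h3 h5
  simp only [Slp.con1, List.mem_append, List.mem_map, List.mem_reverse, List.mem_cons,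
    List.not_mem_nil, or_false, mem_readers]
  constructor
  · rintro (((((e | e | e) | ⟨w, ⟨w1, w2, w3, w4⟩, e⟩) | e) | ⟨w, ⟨w1, w2, w3, w4⟩, e⟩) | e | e)
    · simp [e]
    · simp [e]
    · simp [e]
    · exact Or.inr ⟨w, w2, w1, w3, Or.inl e.symm⟩
    · simp [e]
    · exact Or.inr ⟨w, w2, w1, w3, Or.inr e.symm⟩
    · simp [e]
    · simp [e]
  · rintro ((e | e | e | e | e | e) | ⟨w, w2, w1, w3, e⟩)
    · simp [e]
    · simp [e]
    · simp [e]
    · simp [e]
    · simp [e]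
    · simp [e]
    · have := hk w w2 w1 w3
      rcases e with rfl | rfl
      · simp [w1, w2, w3, this]
      · simp [w1, w2, w3, this]

theorem nodup_con1 : S.con1.Nodup := by
  simp only [Slp.con1, List.nodup_append, List.mem_append, List.mem_map, List.mem_reverse,
    List.mem_cons, List.not_mem_nil, or_false, List.map_reverse, List.nodup_reverse, nodup_map_wr,
    nodup_map_wm, nodup_map_wl, List.nodup_cons, List.nodup_nil, mem_readers, true_and, and_true]
  refine ⟨⟨⟨⟨?_, ?_⟩, not_false, ?_⟩, ?_⟩, ?_, ?_⟩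
  · simp
  · rintro a (rfl | rfl | rfl) b ⟨w', hw', rfl⟩ hab <;> simp at hab
  · rintro a ((rfl | rfl | rfl) | ⟨w, hw, rfl⟩) b rfl hab <;> simp at hab
  · rintro a (((rfl | rfl | rfl) | ⟨w, hw, rfl⟩) | rfl) b ⟨w', hw', rfl⟩ hab <;> simp at hab
  · simp
  · rintro a ((((rfl | rfl | rfl) | ⟨w, hw, rfl⟩) | rfl) | ⟨w, hw, rfl⟩) b (rfl | rfl) hab <;>
      simp at hab

theorem nodup_path1 (h : S.WF) : S.path1.Nodup := by
  simp only [Slp.path1, List.nodup_append]
  refine ⟨⟨nodup_blks1 S h le_rfl, nodup_con1 S, ?_⟩, nodup_anch _, ?_⟩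
  · rintro a ha b hb rfl
    rw [mem_blks1 S h le_rfl] at ha
    rw [mem_con1 S h] at hb
    rcases ha with ⟨i, h1, h2, h3⟩ | ⟨w, w1, w2, w3, rfl⟩
    · have h4 := own_blk1 S h h1 h2 h3
      rcases hb with (e | e | e | e | e | e) | ⟨w', v1, v2, v3, (e | e)⟩ <;>
        simp [e, own] at h4 <;> omega
    · rcases hb with (e | e | e | e | e | e) | ⟨w', v1, v2, v3, (e | e)⟩ <;> simp at e
  · intro a ha b hb hab
    subst hab
    rw [mem_anch] at hb
    obtain ⟨j, h1, h2, h3⟩ := hb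
    rw [List.mem_append, mem_blks1 S h le_rfl, mem_con1 S h] at ha
    rcases ha with (⟨i, i1, i2, i3⟩ | ⟨w, w1, w2, w3, e⟩) |
      ((e | e | e | e | e | e) | ⟨w', v1, v2, v3, (e | e)⟩)
    · have h4 := own_blk1 S h i1 i2 i3
      rcases h3 with e | e <;> simp [e, own] at h4 <;> omega
    all_goals (rcases h3 with e' | e' <;> rw [e] at e' <;> simp at e')

theorem mem_path1 (h : S.WF) (v : Vx) :
    v ∈ S.path1 ↔ S.Valid v ∧ v ≠ O ∧ v ≠ H ∧ v ≠ V := by
  simp only [Slp.path1, List.mem_append, mem_blks1 S h le_rfl, mem_con1 S h, mem_anch]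
  constructor
  · rintro ((((⟨i, h1, h2, h3⟩ | ⟨w, w1, w2, w3, e⟩) | (e | e | e | e | e | e) |
      ⟨w, w1, w2, w3, (e | e)⟩)) | ⟨j, h1, h2, (e | e)⟩)
    · rw [mem_blk1 S h h1 h2] at h3
      rcases h3 with (e | e | e | e | e | e) | ⟨w, w1, w2, w3, (e | e | e)⟩ |
        ⟨h4, (e | e | e | e | e | e | e)⟩ <;> subst e <;> simp [Slp.Valid] <;> omega
    all_goals (subst e; simp [Slp.Valid])
    all_goals omega
  · rintro ⟨h1, h2, h3, h4⟩
    have hw : ∀ w, 2 ≤ w → w ≤ 2 * S.N + 1 → (v = wr w ∨ v = wm w ∨ v = wl w) →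
        (((∃ i, 1 ≤ i ∧ i ≤ S.N ∧ v ∈ S.blk1 i) ∨
          ∃ w, 2 ≤ w ∧ w < 2 * S.N + 2 ∧ S.src w = 0 ∧ v = wr w) ∨
        (v = p0 ∨ v = q0 ∨ v = q0p ∨ v = s0 ∨ v = r0 ∨ v = anc) ∨
          ∃ w, 2 ≤ w ∧ w < 2 * S.N + 2 ∧ S.src w = 0 ∧ (v = wm w ∨ v = wl w)) ∨
        ∃ j, 1 ≤ j ∧ j ≤ S.N ∧ (v = a5 j ∨ v = a3 j) := by
      intro w w1 w2 e
      by_cases h0 : S.src w = 0
      · rcases e with e | e
        · exact Or.inl (Or.inl (Or.inr ⟨w, w1, by omega, h0, e⟩))
        · exact Or.inl (Or.inr (Or.inr ⟨w, w1, by omega, h0, e⟩))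
      · have h5 := src_lt S h w1 (by omega)
        refine Or.inl (Or.inl (Or.inl ⟨S.src w, by omega, by omega, ?_⟩))
        rw [mem_blk1 S h (by omega) (by omega)]
        exact Or.inr (Or.inl ⟨w, w1, by omega, rfl, e⟩)
    have hb : ∀ i, 1 ≤ i → i ≤ S.N →
        ((v = p1 i ∨ v = q2 i ∨ v = X i ∨ v = q3 i ∨ v = Y i ∨ v = r4 i) ∨
        (i = S.N ∧ (v = A1 ∨ v = A2 ∨ v = B1 ∨ v = B2 ∨ v = M ∨ v = J ∨ v = n))) →
        (((∃ i, 1 ≤ i ∧ i ≤ S.N ∧ v ∈ S.blk1 i) ∨
          ∃ w, 2 ≤ w ∧ w < 2 * S.N + 2 ∧ S.src w = 0 ∧ v = wr w) ∨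
        (v = p0 ∨ v = q0 ∨ v = q0p ∨ v = s0 ∨ v = r0 ∨ v = anc) ∨
          ∃ w, 2 ≤ w ∧ w < 2 * S.N + 2 ∧ S.src w = 0 ∧ (v = wm w ∨ v = wl w)) ∨
        ∃ j, 1 ≤ j ∧ j ≤ S.N ∧ (v = a5 j ∨ v = a3 j) := by
      intro i i1 i2 e
      refine Or.inl (Or.inl (Or.inl ⟨i, i1, i2, ?_⟩))
      rw [mem_blk1 S h i1 i2]
      rcases e with e | e
      · exact Or.inl e
      · exact Or.inr (Or.inr e)
    have hN := h.one_le
    cases v with
    | O => exact absurd rfl h2
    | H => exact absurd rfl h3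
    | V => exact absurd rfl h4
    | A1 | A2 | B1 | B2 | M | J | n => exact hb S.N hN le_rfl (Or.inr ⟨rfl, by simp⟩)
    | p0 | q0 | q0p | s0 | r0 | anc => exact Or.inl (Or.inr (Or.inl (by simp)))
    | p1 j | q2 j | X j | q3 j | r4 j | Y j => exact hb j h1.1 h1.2 (Or.inl (by simp))
    | a5 j | a3 j => exact Or.inr ⟨j, h1.1, h1.2, by simp⟩
    | wr w | wm w | wl w => exact hw w h1.1 h1.2 (by simp)

theorem C2a (h : S.WF) : S.path1.Nodup ∧
    ∀ v, v ∈ S.path1 ↔ S.Valid v ∧ v ≠ O ∧ v ≠ H ∧ v ≠ V :=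
  ⟨nodup_path1 S h, mem_path1 S h⟩

/-! ### The second path -/

/-- the block of a vertex of the second path -/
def own2 (v : Vx) : ℕ :=
  match v with
  | .p1 j | .q2 j | .X j | .q3 j | .r4 j | .Y j | .a5 j | .a3 j => j
  | .wr w | .wm w | .wl w => w / 2
  | _ => 0

theorem mem_blk2 (j : ℕ) (v : Vx) : v ∈ S.blk2 j ↔
    (v = p1 j ∨ v = q2 j ∨ v = X j ∨ v = q3 j ∨ v = r4 j ∨ v = Y j ∨ v = a5 j ∨ v = a3 j) ∨
      ∃ w, (w = 2 * j ∨ w = 2 * j + 1) ∧ (v = wr w ∨ v = wm w ∨ v = wl w) := by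
  unfold Slp.blk2 Slp.c5 Slp.c4 Slp.c3 Slp.c2
  simp only [or_and_right, exists_or, exists_eq_left]
  rcases hty : S.ty j with _ | _ | _ <;>
    simp only [List.mem_append, List.mem_cons, List.not_mem_nil, or_false] <;> tauto

theorem nodup_blk2 (j : ℕ) : (S.blk2 j).Nodup := by
  unfold Slp.blk2 Slp.c5 Slp.c4 Slp.c3 Slp.c2
  rcases hty : S.ty j with _ | _ | _ <;> simp

theorem mem_blks2 (k : ℕ) (v : Vx) : v ∈ S.blks2 k ↔ ∃ j, 1 ≤ j ∧ j ≤ k ∧ v ∈ S.blk2 j := by
  induction k with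
  | zero =>
    simp only [Slp.blks2, List.not_mem_nil, false_iff]
    rintro ⟨j, h1, h2, -⟩
    omega
  | succ k ih =>
    simp only [Slp.blks2, List.mem_append, ih]
    constructor
    · rintro (h1 | ⟨j, h1, h2, h3⟩)
      · exact ⟨k + 1, by omega, le_rfl, h1⟩
      · exact ⟨j, h1, by omega, h3⟩
    · rintro ⟨j, h1, h2, h3⟩
      rcases Nat.lt_or_ge j (k + 1) with h4 | h4
      · exact Or.inr ⟨j, h1, by omega, h3⟩
      · have : j = k + 1 := by omega
        subst this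
        exact Or.inl h3

theorem own2_blk2 {j : ℕ} {v : Vx} (hv : v ∈ S.blk2 j) : own2 v = j := by
  rw [mem_blk2] at hv
  rcases hv with (e | e | e | e | e | e | e | e) | ⟨w, (e' | e'), (e | e | e)⟩ <;> subst e <;>
    simp [own2] <;> omega

theorem nodup_blks2 (k : ℕ) : (S.blks2 k).Nodup := by
  induction k with
  | zero => simp [Slp.blks2]
  | succ k ih =>
    simp only [Slp.blks2]
    rw [List.nodup_append]
    refine ⟨nodup_blk2 S _, ih, ?_⟩
    rintro a ha b hb rfl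
    have h1 := own2_blk2 S ha
    rw [mem_blks2] at hb
    obtain ⟨j, h2, h3, h4⟩ := hb
    have h5 := own2_blk2 S h4
    omega

theorem nodup_path2 : S.path2.Nodup := by
  simp only [Slp.path2, List.nodup_append]
  refine ⟨⟨by simp, nodup_blks2 S _, ?_⟩, by simp, ?_⟩
  · rintro a ha b hb rfl
    rw [mem_blks2] at hb
    obtain ⟨j, h2, h3, h4⟩ := hb
    have h5 := own2_blk2 S h4
    simp only [List.mem_cons, List.not_mem_nil, or_false] at ha
    rcases ha with rfl | rfl | rfl | rfl | rfl | rfl <;> simp only [own2] at h5 <;> omega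
  · rintro a ha b hb rfl
    rw [List.mem_append, mem_blks2] at ha
    simp only [List.mem_cons, List.not_mem_nil, or_false] at ha hb
    rcases ha with ha | ⟨j, h2, h3, h4⟩
    · rcases ha with rfl | rfl | rfl | rfl | rfl | rfl <;> simp at hb
    · have h5 := own2_blk2 S h4
      rcases hb with rfl | rfl | rfl | rfl | rfl <;> simp only [own2] at h5 <;> omega

theorem mem_path2 (v : Vx) :
    v ∈ S.path2 ↔ S.Valid v ∧ v ≠ O ∧ v ≠ H ∧ v ≠ V ∧ v ≠ J ∧ v ≠ n := by
  simp only [Slp.path2, List.mem_append, mem_blks2, mem_blk2, List.mem_cons, List.not_mem_nil,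
    or_false]
  constructor
  · rintro (((e | e | e | e | e | e) | ⟨j, h1, h2, ((e | e | e | e | e | e | e | e) |
      ⟨w, (e' | e'), (e | e | e)⟩)⟩) | (e | e | e | e | e)) <;> subst e <;>
      simp [Slp.Valid] <;> omega
  · rintro ⟨h1, h2, h3, h4, h5, h6⟩
    cases v with
    | O => exact absurd rfl h2
    | H => exact absurd rfl h3
    | V => exact absurd rfl h4
    | J => exact absurd rfl h5
    | n => exact absurd rfl h6
    | A1 | A2 | B1 | B2 | M | anc => exact Or.inl (Or.inl (by simp))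
    | p0 | q0 | q0p | s0 | r0 => exact Or.inr (by simp)
    | p1 j | q2 j | X j | q3 j | r4 j | Y j | a5 j | a3 j =>
      exact Or.inl (Or.inr ⟨j, h1.1, h1.2, Or.inl (by simp)⟩)
    | wr w | wm w | wl w =>
      simp only [Slp.Valid] at h1
      refine Or.inl (Or.inr ⟨w / 2, by omega, by omega, Or.inr ⟨w, by omega, by simp⟩⟩)

theorem C2b (_h : S.WF) : S.path2.Nodup ∧
    ∀ v, v ∈ S.path2 ↔ S.Valid v ∧ v ≠ O ∧ v ≠ H ∧ v ≠ V ∧ v ≠ J ∧ v ≠ n :=
  ⟨nodup_path2 S, mem_path2 S⟩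

end Pool.Agent.helper85.SGE
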