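import Pool.Agent.helper56.SGE.Comb

/-!
# Modules O3 and O4 of the SGE project: homogeneous coordinates
-/

set_option autoImplicit false

namespace Pool.Agent.helper85.SGE

open Pool.Agent.helper56.SGE

variable {α : Type*} [DecidableEq α]

/-- scaling of the rows of a determinant -/
theorem det3_smul (a b c : ℝ × ℝ × ℝ) (r s t : ℝ) :
    det3 (r * a.1, r * a.2.1, r * a.2.2) (s * b.1, s * b.2.1, s * b.2.2)
      (t * c.1, t * c.2.1, t * c.2.2) = r * s * t * det3 a b c := by
  simp only [det3]
  ring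

/-- unnormalised barycentric coordinates -/
noncomputable def row (A B C v : Pt) : ℝ × ℝ × ℝ := (orient B C v, orient C A v, orient A B v)

theorem det3_row (A B C a b c : Pt) :
    det3 (row A B C a) (row A B C b) (row A B C c) = orient A B C ^ 2 * orient a b c := by
  simp only [det3, row, orient]
  ring

theorem O3a {S : Finset α} {o : Face α} (ho : o.1 ≠ o.2.1 ∧ o.2.1 ≠ o.2.2 ∧ o.2.2 ≠ o.1)
    {p : α → Pt} (hp : Set.InjOn p S) (h0 : 0 < orient (p o.1) (p o.2.1) (p o.2.2))
    (h1 : ∀ v ∈ S, v ∉ o.verts → 0 < orient (p o.1) (p o.2.1) (p v) ∧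
        0 < orient (p o.2.1) (p o.2.2) (p v) ∧ 0 < orient (p o.2.2) (p o.1) (p v)) :
    ∃ x y : α → ℝ, (∀ v ∈ S, v ∉ o.verts → 0 < x v ∧ 0 < y v) ∧
      Set.InjOn (fun v => (x v, y v)) {v | v ∈ S ∧ v ∉ o.verts} ∧
      ∀ a ∈ S, ∀ b ∈ S, ∀ c ∈ S,
        (0 < orient (p a) (p b) (p c) ↔ 0 < det3 (hom o x y a) (hom o x y b) (hom o x y c)) := by
  classical
  set A := p o.1 with hA
  set B := p o.2.1 with hB
  set C := p o.2.2 with hC
  let x : α → ℝ := fun v => orient C A (p v) / orient B C (p v)
  let y : α → ℝ := fun v => orient A B (p v) / orient B C (p v)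
  let s : α → ℝ := fun v => if v = o.1 ∨ v = o.2.1 ∨ v = o.2.2 then orient A B C
    else orient B C (p v)
  have hmem : ∀ v, v ∈ o.verts ↔ v = o.1 ∨ v = o.2.1 ∨ v = o.2.2 := by
    intro v
    simp [Face.verts]
  have hs : ∀ v ∈ S, 0 < s v := by
    intro v hv
    by_cases h : v = o.1 ∨ v = o.2.1 ∨ v = o.2.2
    · simp only [s, if_pos h]; exact h0
    · simp only [s, if_neg h]
      exact (h1 v hv (fun h' => h ((hmem v).1 h'))).2.1
  have hrow : ∀ v ∈ S, row A B C (p v) =
      (s v * (hom o x y v).1, s v * (hom o x y v).2.1, s v * (hom o x y v).2.2) := by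
    intro v hv
    by_cases e1 : v = o.1
    · subst e1
      simp only [row, s, hom, if_true, true_or]
      rw [← hA]
      simp only [orient, Prod.mk.injEq]
      refine ⟨by ring, by ring, by ring⟩
    by_cases e2 : v = o.2.1
    · subst e2
      simp only [row, s, hom, e1, if_true, if_false, true_or, or_true]
      rw [← hB]
      simp only [orient, Prod.mk.injEq]
      refine ⟨by ring, by ring, by ring⟩
    by_cases e3 : v = o.2.2
    · subst e3
      simp only [row, s, hom, e1, e2, if_true, if_false, or_true]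
      rw [← hC]
      simp only [orient, Prod.mk.injEq]
      refine ⟨by ring, by ring, by ring⟩
    have hv' : v ∉ o.verts := by
      rw [hmem]
      push Not
      exact ⟨e1, e2, e3⟩
    have h2 := (h1 v hv hv').2.1
    simp only [row, s, hom, e1, e2, e3, if_false, or_false, x, y, Prod.mk.injEq]
    refine ⟨by ring, ?_, ?_⟩
    · field_simp
    · field_simp
  refine ⟨x, y, ?_, ?_, ?_⟩
  · intro v hv hv'
    obtain ⟨h2, h3, h4⟩ := h1 v hv hv'
    exact ⟨div_pos h4 h3, div_pos h2 h3⟩
  · rintro v ⟨hv, hv'⟩ w ⟨hw, hw'⟩ hvw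
    obtain ⟨v2, v3, v4⟩ := h1 v hv hv'
    obtain ⟨w2, w3, w4⟩ := h1 w hw hw'
    simp only [x, y, Prod.mk.injEq] at hvw
    obtain ⟨e1, e2⟩ := hvw
    -- sum of the unnormalised coordinates is `orient A B C`
    have sv : orient B C (p v) + orient C A (p v) + orient A B (p v) = orient A B C := by
      simp only [orient]; ring
    have sw : orient B C (p w) + orient C A (p w) + orient A B (p w) = orient A B C := by
      simp only [orient]; ring
    rw [div_eq_div_iff v3.ne' w3.ne'] at e1 e2
    have e3 : orient B C (p v) = orient B C (p w) := by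
      have h5 : orient B C (p w) * (orient B C (p v) + orient C A (p v) + orient A B (p v)) =
          orient B C (p v) * (orient B C (p w) + orient C A (p w) + orient A B (p w)) := by
        linear_combination e1 + e2
      rw [sv, sw] at h5
      have := mul_right_cancel₀ h0.ne' h5
      exact this.symm
    have e4 : orient C A (p v) = orient C A (p w) := by
      rw [e3] at e1
      exact mul_right_cancel₀ w3.ne' e1
    have e5 : orient A B (p v) = orient A B (p w) := by
      rw [e3] at e2
      exact mul_right_cancel₀ w3.ne' e2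
    apply hp hv hw
    -- the barycentric coordinates determine the point
    have f1 : orient A B C * (p v).1 = A.1 * orient B C (p v) + B.1 * orient C A (p v) +
        C.1 * orient A B (p v) := by
      simp only [orient]; ring
    have f2 : orient A B C * (p v).2 = A.2 * orient B C (p v) + B.2 * orient C A (p v) +
        C.2 * orient A B (p v) := by
      simp only [orient]; ring
    have f3 : orient A B C * (p w).1 = A.1 * orient B C (p w) + B.1 * orient C A (p w) +
        C.1 * orient A B (p w) := by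
      simp only [orient]; ring
    have f4 : orient A B C * (p w).2 = A.2 * orient B C (p w) + B.2 * orient C A (p w) +
        C.2 * orient A B (p w) := by
      simp only [orient]; ring
    rw [e3, e4, e5, ← f3] at f1
    rw [e3, e4, e5, ← f4] at f2
    exact Prod.ext (mul_left_cancel₀ h0.ne' f1) (mul_left_cancel₀ h0.ne' f2)
  · intro a ha b hb c hc
    have h2 := det3_row A B C (p a) (p b) (p c)
    rw [hrow a ha, hrow b hb, hrow c hc, det3_smul] at h2
    have h3 : 0 < s a * s b * s c := mul_pos (mul_pos (hs a ha) (hs b hb)) (hs c hc)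
    have h4 : 0 < orient A B C ^ 2 := by positivity
    constructor
    · intro h5
      have : 0 < s a * s b * s c * det3 (hom o x y a) (hom o x y b) (hom o x y c) := by
        rw [h2]; positivity
      exact (mul_pos_iff_of_pos_left h3).1 this
    · intro h5
      have : 0 < orient A B C ^ 2 * orient (p a) (p b) (p c) := by
        rw [← h2]; positivity
      exact (mul_pos_iff_of_pos_left h4).1 this

/-- the point with given homogeneous coordinates -/
noncomputable def pt (h : ℝ × ℝ × ℝ) : Pt :=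
  (h.2.1 / (h.1 + h.2.1 + h.2.2), h.2.2 / (h.1 + h.2.1 + h.2.2))

theorem orient_pt {a b c : ℝ × ℝ × ℝ} (ha : 0 < a.1 + a.2.1 + a.2.2)
    (hb : 0 < b.1 + b.2.1 + b.2.2) (hc : 0 < c.1 + c.2.1 + c.2.2) :
    (a.1 + a.2.1 + a.2.2) * (b.1 + b.2.1 + b.2.2) * (c.1 + c.2.1 + c.2.2) *
      orient (pt a) (pt b) (pt c) = det3 a b c := by
  simp only [orient, pt, det3]
  field_simp
  ring

theorem O3b {S : Finset α} {o : Face α} (ho : o.1 ≠ o.2.1 ∧ o.2.1 ≠ o.2.2 ∧ o.2.2 ≠ o.1)
    {x y : α → ℝ} (h1 : ∀ v ∈ S, v ∉ o.verts → 0 < x v ∧ 0 < y v)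
    (h2 : Set.InjOn (fun v => (x v, y v)) {v | v ∈ S ∧ v ∉ o.verts}) :
    ∃ p : α → Pt, Set.InjOn p S ∧ ∀ a ∈ S, ∀ b ∈ S, ∀ c ∈ S,
        (0 < orient (p a) (p b) (p c) ↔ 0 < det3 (hom o x y a) (hom o x y b) (hom o x y c)) := by
  classical
  have hmem : ∀ v, v ∈ o.verts ↔ v = o.1 ∨ v = o.2.1 ∨ v = o.2.2 := by
    intro v
    simp [Face.verts]
  have hh : ∀ v ∈ S, 0 < (hom o x y v).1 + (hom o x y v).2.1 + (hom o x y v).2.2 := by
    intro v hv
    by_cases e1 : v = o.1
    · simp [hom, e1]
    by_cases e2 : v = o.2.1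
    · simp only [hom, e1, e2, if_true, if_false]
      split_ifs <;> norm_num
    by_cases e3 : v = o.2.2
    · simp only [hom, e1, e2, e3, if_true, if_false]
      split_ifs <;> norm_num
    have := h1 v hv (by rw [hmem]; push Not; exact ⟨e1, e2, e3⟩)
    simp only [hom, e1, e2, e3, if_false]
    linarith [this.1, this.2]
  refine ⟨fun v => pt (hom o x y v), ?_, ?_⟩
  · intro v hv w hw hvw
    -- classification
    have key : ∀ u ∈ S, (u = o.1 ∧ pt (hom o x y u) = (0, 0)) ∨
        (u = o.2.1 ∧ pt (hom o x y u) = (1, 0)) ∨ (u = o.2.2 ∧ pt (hom o x y u) = (0, 1)) ∨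
        (u ∉ o.verts ∧ 0 < x u ∧ 0 < y u ∧
          pt (hom o x y u) = (x u / (1 + x u + y u), y u / (1 + x u + y u))) := by
      intro u hu
      by_cases e1 : u = o.1
      · left
        exact ⟨e1, by simp [hom, e1, pt]⟩
      by_cases e2 : u = o.2.1
      · right; left
        refine ⟨e2, ?_⟩
        simp only [hom, e1, if_false, if_pos e2, pt]
        norm_num
      by_cases e3 : u = o.2.2
      · right; right; left
        refine ⟨e3, ?_⟩
        simp only [hom, e1, e2, if_false, if_pos e3, pt]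
        norm_num
      right; right; right
      have hu' : u ∉ o.verts := by rw [hmem]; push Not; exact ⟨e1, e2, e3⟩
      have := h1 u hu hu'
      refine ⟨hu', this.1, this.2, ?_⟩
      simp only [hom, e1, e2, e3, if_false, pt]
    have hvw' : pt (hom o x y v) = pt (hom o x y w) := hvw
    rcases key v hv with ⟨v1, v2⟩ | ⟨v1, v2⟩ | ⟨v1, v2⟩ | ⟨v1, v3, v4, v2⟩ <;>
      rcases key w hw with ⟨w1, w2⟩ | ⟨w1, w2⟩ | ⟨w1, w2⟩ | ⟨w1, w3, w4, w2⟩ <;>
      rw [v2, w2] at hvw' <;> simp only [Prod.mk.injEq] at hvw' <;> obtain ⟨k1, k2⟩ := hvw'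
    · rw [v1, w1]
    · norm_num at k1
    · norm_num at k2
    · have : 0 < x w / (1 + x w + y w) := by positivity
      linarith
    · norm_num at k1
    · rw [v1, w1]
    · norm_num at k1
    · have : 0 < y w / (1 + x w + y w) := by positivity
      linarith
    · norm_num at k2
    · norm_num at k1
    · rw [v1, w1]
    · have : 0 < x w / (1 + x w + y w) := by positivity
      linarith
    · have : 0 < x v / (1 + x v + y v) := by positivity
      linarith
    · have : 0 < y v / (1 + x v + y v) := by positivity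
      linarith
    · have : 0 < x v / (1 + x v + y v) := by positivity
      linarith
    · have zv : 0 < 1 + x v + y v := by linarith
      have zw : 0 < 1 + x w + y w := by linarith
      have e0 : 1 / (1 + x v + y v) = 1 / (1 + x w + y w) := by
        have a1 : 1 / (1 + x v + y v) = 1 - x v / (1 + x v + y v) - y v / (1 + x v + y v) := by
          field_simp
          ring
        have a2 : 1 / (1 + x w + y w) = 1 - x w / (1 + x w + y w) - y w / (1 + x w + y w) := by
          field_simp
          ring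
        rw [a1, a2, k1, k2]
      have e1 : 1 + x v + y v = 1 + x w + y w := by
        rw [div_eq_div_iff zv.ne' zw.ne'] at e0
        linarith
      rw [e1] at k1 k2
      have e2 : x v = x w := by
        field_simp at k1
        exact k1
      have e3 : y v = y w := by
        field_simp at k2
        exact k2
      exact h2 ⟨hv, v1⟩ ⟨hw, w1⟩ (by simp only [e2, e3])
  · intro a ha b hb c hc
    have h3 := orient_pt (hh a ha) (hh b hb) (hh c hc)
    rw [← h3]
    exact (mul_pos_iff_of_pos_left (mul_pos (mul_pos (hh a ha) (hh b hb)) (hh c hc))).symm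

/-- reflection of the plane -/
theorem orient_swap (a b c : Pt) : orient a.swap b.swap c.swap = - orient a b c := by
  simp only [orient, Prod.fst_swap, Prod.snd_swap]
  ring

/-- module O4, with the statements of O1 and O2 as hypotheses -/
theorem O4_of {S : Finset α} {o : Face α} {F1 F2 : List (Face α)} (h1 : Sphere S o F1)
    (h2 : Sphere S o F2)
    (hO1 : ∀ p : α → Pt, IsSGEOn S (trE o F1 F2) p →
      ∃ σ : ℝ, (σ = 1 ∨ σ = -1) ∧
        (∀ f ∈ o :: (F1 ++ F2), 0 < σ * orient (p f.1) (p f.2.1) (p f.2.2)) ∧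
        ∀ v ∈ S, v ∉ o.verts → 0 < σ * orient (p o.1) (p o.2.1) (p v) ∧
          0 < σ * orient (p o.2.1) (p o.2.2) (p v) ∧ 0 < σ * orient (p o.2.2) (p o.1) (p v))
    (hO2 : ∀ F : List (Face α), Sphere S o F → ∀ p : α → Pt, Set.InjOn p S →
      (∀ f ∈ F, 0 < orient (p f.1) (p f.2.1) (p f.2.2)) →
      (∀ u ∈ S, ∀ v ∈ S, ∀ w ∈ S, trAdj o F u v → w ≠ u → w ≠ v →
        p w ∉ segment ℝ (p u) (p v)) ∧
      (∀ u ∈ S, ∀ v ∈ S, ∀ u' ∈ S, ∀ v' ∈ S, trAdj o F u v → trAdj o F u' v' →
        s(u, v) ≠ s(u', v') → ¬ Cross p u v u' v')) :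
    (∃ p, IsSGEOn S (trE o F1 F2) p) ↔ Real2 S o F1 F2 := by
  have ho : o.1 ≠ o.2.1 ∧ o.2.1 ≠ o.2.2 ∧ o.2.2 ≠ o.1 := h1.ne o (by simp)
  have hsub : ∀ f ∈ F1 ++ F2, f.1 ∈ S ∧ f.2.1 ∈ S ∧ f.2.2 ∈ S := by
    intro f hf
    have : f.verts ⊆ S := by
      rcases List.mem_append.1 hf with hf | hf
      · exact h1.sub f (List.mem_cons_of_mem _ hf)
      · exact h2.sub f (List.mem_cons_of_mem _ hf)
    refine ⟨this ?_, this ?_, this ?_⟩ <;> simp [Face.verts]
  constructor
  · rintro ⟨p, hp⟩
    obtain ⟨σ, hσ, hf, hv⟩ := hO1 p hp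
    -- a drawing with positive orientations
    obtain ⟨q, hq, hqf, hqv⟩ : ∃ q : α → Pt, Set.InjOn q S ∧
        (∀ f ∈ o :: (F1 ++ F2), 0 < orient (q f.1) (q f.2.1) (q f.2.2)) ∧
        ∀ v ∈ S, v ∉ o.verts → 0 < orient (q o.1) (q o.2.1) (q v) ∧
          0 < orient (q o.2.1) (q o.2.2) (q v) ∧ 0 < orient (q o.2.2) (q o.1) (q v) := by
      rcases hσ with rfl | rfl
      · refine ⟨p, hp.inj, fun f hf' => ?_, fun v hv1 hv2 => ?_⟩
        · simpa using hf f hf'
        · simpa using hv v hv1 hv2
      · refine ⟨fun v => (p v).swap, fun u hu v hv' huv => ?_, fun f hf' => ?_,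
          fun v hv1 hv2 => ?_⟩
        · exact hp.inj hu hv' (Prod.swap_injective huv)
        · have := hf f hf'
          simp only [orient_swap]
          linarith
        · have := hv v hv1 hv2
          simp only [orient_swap]
          exact ⟨by linarith [this.1], by linarith [this.2.1], by linarith [this.2.2]⟩
    obtain ⟨x, y, k1, k2, k3⟩ := O3a ho hq (hqf o (by simp)) hqv
    refine ⟨x, y, k1, fun f hf' => ?_, k2⟩
    obtain ⟨m1, m2, m3⟩ := hsub f hf'
    exact (k3 _ m1 _ m2 _ m3).1 (hqf f (List.mem_cons_of_mem _ hf'))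
  · rintro ⟨x, y, k1, k2, k3⟩
    obtain ⟨p, hp, hp'⟩ := O3b ho k1 k3
    have hpos : ∀ f ∈ F1 ++ F2, 0 < orient (p f.1) (p f.2.1) (p f.2.2) := by
      intro f hf
      obtain ⟨m1, m2, m3⟩ := hsub f hf
      exact (hp' _ m1 _ m2 _ m3).2 (k2 f hf)
    have g1 := hO2 F1 h1 p hp fun f hf => hpos f (List.mem_append_left _ hf)
    have g2 := hO2 F2 h2 p hp fun f hf => hpos f (List.mem_append_right _ hf)
    refine ⟨p, hp, fun i => ?_, fun i => ?_⟩
    · simp only [trE]
      by_cases hi : i = 0
      · simp only [hi, if_true]; exact g1.1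
      · simp only [hi, if_false]; exact g2.1
    · simp only [trE]
      by_cases hi : i = 0
      · simp only [hi, if_true]; exact g1.2
      · simp only [hi, if_false]; exact g2.2

end Pool.Agent.helper85.SGE
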